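import Pool.Agent.H525.EX.Stm2

/-!
# Project EX, LEX: local expansion (helper113)
-/

set_option autoImplicit false

namespace Pool.Agent.H113.EX

open Polynomial
open Pool.Agent.H525.EX
open scoped Classical

/-- the local polynomials for arbitrary arrays -/
noncomputable def Hh (u v : Arr) (Q : ℝ) (m : ℕ) : ℝ[X] :=
  ∑ j ∈ Finset.range (4 * (m / 2) + 2),
    C (Q ^ (m / 2) * (if m % 2 = 0 then u else v) ((m / 2 : ℕ) : ℤ)
      ((j : ℤ) - ((m / 2 : ℕ) : ℤ))) * X ^ j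

/-- the symmetric coefficients for arbitrary arrays -/
noncomputable def Sh (u v : Arr) (Q : ℝ) (ι i k : ℕ) : ℝ :=
  if ι = 0 then u (i : ℤ) (k : ℤ) - Q⁻¹ * v ((i : ℤ) - 1) ((k : ℤ) + 1)
  else u (i : ℤ) ((k : ℤ) + 1) - v (i : ℤ) ((k : ℤ) + 1)

/-- one block -/
noncomputable def Dh (u v : Arr) (Q : ℝ) (ι i : ℕ) : ℝ[X] :=
  ∑ k ∈ Finset.range (3 * i + 1), C ((-1) ^ ι * Q ^ i * Sh u v Q ι i k) * X ^ (i + k + ι)

section

variable {ε Q : ℝ} {u v : Arr}

theorem u_zero (h : Pre 0 ε Q⁻¹ u v) {n e : ℤ} (he : 3 * n < e) : u n e = 0 := by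
  have h1 := h.ua n (2 * n - e)
  have e1 : 2 * n - (2 * n - e) = e := by ring
  rw [e1, h.us n (2 * n - e) (by linarith), mul_zero] at h1
  exact h1

theorem v_zero (h : Pre 0 ε Q⁻¹ u v) {n e : ℤ} (he : 3 * n + 1 < e) : v n e = 0 := by
  have h1 := h.va n (2 * n + 1 - e)
  have e1 : 2 * n + 1 - (2 * n + 1 - e) = e := by ring
  rw [e1, h.vs n (2 * n + 1 - e) (by linarith), mul_zero, neg_zero] at h1
  exact h1

theorem eqA (h : Pre 0 ε Q⁻¹ u v) (n e : ℤ) :
    u n e - Q⁻¹ * v (n - 1) (e + 1) = u e n - Q⁻¹ * v (e - 1) (n + 1) := by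
  have h1 := h.A n e
  have e1 : (2 * ((0 : ℕ) : ℤ) + 1) = 1 := by norm_num
  have e2 : (2 * ((0 : ℕ) : ℤ) - 1) = -1 := by norm_num
  rw [e1, e2, pow_zero, one_mul, sub_neg_eq_add, sub_neg_eq_add] at h1
  exact h1

theorem Sh_symm (h : Pre 0 ε Q⁻¹ u v) (ι i k : ℕ) : Sh u v Q ι i k = Sh u v Q ι k i := by
  unfold Sh
  split_ifs
  · exact eqA h i k
  · exact h.B i k

theorem Sh_zero (h : Pre 0 ε Q⁻¹ u v) (ι i k : ℕ) (hik : 3 * i < k) : Sh u v Q ι i k = 0 := by
  have h1 : 3 * (i : ℤ) < k := by exact_mod_cast hik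
  unfold Sh
  split_ifs
  · rw [u_zero h h1, v_zero h (by linarith)]
    ring
  · rw [u_zero h (by linarith), v_zero h (by linarith)]
    ring

theorem coeff_Hh (h : Pre 0 ε Q⁻¹ u v) (m j : ℕ) : (Hh u v Q m).coeff j =
    Q ^ (m / 2) * (if m % 2 = 0 then u else v) ((m / 2 : ℕ) : ℤ)
      ((j : ℤ) - ((m / 2 : ℕ) : ℤ)) := by
  unfold Hh
  rw [finsetSum_coeff]
  simp only [coeff_C_mul, coeff_X_pow, mul_ite, mul_one, mul_zero]
  rw [Finset.sum_ite_eq]
  by_cases hj : j ∈ Finset.range (4 * (m / 2) + 2)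
  · rw [if_pos hj]
  · rw [if_neg hj]
    rw [Finset.mem_range, not_lt] at hj
    have h1 : 4 * ((m / 2 : ℕ) : ℤ) + 2 ≤ j := by exact_mod_cast hj
    split_ifs
    · rw [u_zero h (by linarith), mul_zero]
    · rw [v_zero h (by linarith), mul_zero]

theorem coeff_Dh (h : Pre 0 ε Q⁻¹ u v) (ι i j : ℕ) : (Dh u v Q ι i).coeff j =
    if i + ι ≤ j then (-1) ^ ι * Q ^ i * Sh u v Q ι i (j - (i + ι)) else 0 := by
  unfold Dh
  rw [finsetSum_coeff]
  simp only [coeff_C_mul, coeff_X_pow, mul_ite, mul_one, mul_zero]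
  by_cases hj : i + ι ≤ j
  · rw [if_pos hj]
    have h1 : ∀ k ∈ Finset.range (3 * i + 1), (if j = i + k + ι then
        (-1) ^ ι * Q ^ i * Sh u v Q ι i k else 0) =
        if j - (i + ι) = k then (-1) ^ ι * Q ^ i * Sh u v Q ι i k else 0 := by
      intro k _
      by_cases hk : j = i + k + ι
      · rw [if_pos hk, if_pos (by omega)]
      · rw [if_neg hk, if_neg (by omega)]
    rw [Finset.sum_congr rfl h1, Finset.sum_ite_eq]
    by_cases hk : j - (i + ι) ∈ Finset.range (3 * i + 1)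
    · rw [if_pos hk]
    · rw [if_neg hk, Sh_zero h ι i _ (by
        rw [Finset.mem_range, not_lt] at hk
        omega), mul_zero]
  · rw [if_neg hj]
    refine Finset.sum_eq_zero fun k _ => ?_
    rw [if_neg (by omega)]

theorem u00 (h : Sol 0 ε Q⁻¹ u v) : u 0 0 = 1 := by
  have h1 := h.N 0
  rw [if_pos rfl] at h1
  unfold sm at h1
  have e : Finset.Icc (-(0 : ℤ)) (3 * 0 + 1) = {0, 1} := by decide
  rw [e, Finset.sum_pair (by norm_num), u_zero (e := 1) h.pre (by norm_num), add_zero] at h1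
  exact h1

theorem step (h : Sol 0 ε Q⁻¹ u v) (hQ : 0 < Q) (m : ℕ) :
    Hh u v Q (m + 1) = Hh u v Q m + Dh u v Q ((m + 1) % 2) ((m + 1) / 2) := by
  have hp := h.pre
  ext j
  rw [coeff_add, coeff_Hh hp, coeff_Hh hp, coeff_Dh hp]
  rcases Nat.even_or_odd' m with ⟨i, hi | hi⟩
  · have e1 : (m + 1) / 2 = i := by omega
    have e2 : (m + 1) % 2 = 1 := by omega
    have e3 : m / 2 = i := by omega
    have e4 : m % 2 = 0 := by omega
    rw [e1, e2, e3, e4, if_neg (by norm_num : ¬ (1 : ℕ) = 0), if_pos rfl]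
    by_cases hj : i + 1 ≤ j
    · rw [if_pos hj]
      unfold Sh
      rw [if_neg (by norm_num : ¬ (1 : ℕ) = 0)]
      have e5 : ((j - (i + 1) : ℕ) : ℤ) + 1 = (j : ℤ) - i := by
        rw [Nat.cast_sub hj]
        push_cast
        ring
      rw [e5]
      ring
    · rw [if_neg hj]
      have h1 := hp.B i ((j : ℤ) - i - 1)
      have h2 : (j : ℤ) - i - 1 < 0 := by omega
      rw [hp.un _ _ h2, hp.vn _ _ h2] at h1
      have e5 : (j : ℤ) - i - 1 + 1 = (j : ℤ) - i := by ring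
      rw [e5] at h1
      have h3 : v i ((j : ℤ) - i) = u i ((j : ℤ) - i) := by linarith
      rw [h3]
      ring
  · have e1 : (m + 1) / 2 = i + 1 := by omega
    have e2 : (m + 1) % 2 = 0 := by omega
    have e3 : m / 2 = i := by omega
    have e4 : m % 2 = 1 := by omega
    rw [e1, e2, e3, e4, if_pos rfl, if_neg (by norm_num : ¬ (1 : ℕ) = 0)]
    have e6 : (((i + 1 : ℕ) : ℤ) - 1) = (i : ℤ) := by push_cast; ring
    by_cases hj : i + 1 + 0 ≤ j
    · rw [if_pos hj]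
      unfold Sh
      rw [if_pos rfl, e6]
      have e5 : ((j - (i + 1 + 0) : ℕ) : ℤ) = (j : ℤ) - ((i + 1 : ℕ) : ℤ) := by
        rw [Nat.cast_sub hj]
      have e7 : (j : ℤ) - ((i + 1 : ℕ) : ℤ) + 1 = (j : ℤ) - i := by push_cast; ring
      rw [e5, e7, pow_succ]
      field_simp
      ring
    · rw [if_neg hj]
      have h1 := eqA hp ((i + 1 : ℕ) : ℤ) ((j : ℤ) - ((i + 1 : ℕ) : ℤ))
      have h2 : (j : ℤ) - ((i + 1 : ℕ) : ℤ) < 0 := by omega
      rw [hp.un _ _ h2, hp.vn _ _ (by linarith : (j : ℤ) - ((i + 1 : ℕ) : ℤ) - 1 < 0), e6] at h1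
      have e7 : (j : ℤ) - ((i + 1 : ℕ) : ℤ) + 1 = (j : ℤ) - i := by push_cast; ring
      rw [e7] at h1
      have h3 : u ((i + 1 : ℕ) : ℤ) ((j : ℤ) - ((i + 1 : ℕ) : ℤ)) = Q⁻¹ * v i ((j : ℤ) - i) := by
        linarith
      rw [h3, pow_succ]
      field_simp
      ring

/-- the sum of the blocks -/
noncomputable def Rh (u v : Arr) (Q : ℝ) (m : ℕ) : ℝ[X] :=
  ∑ ι ∈ Finset.range 2, ∑ i ∈ Finset.range (m + 1), if 2 * i + ι ≤ m then Dh u v Q ι i else 0

theorem Rh_step (u v : Arr) (Q : ℝ) (m : ℕ) :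
    Rh u v Q (m + 1) = Rh u v Q m + Dh u v Q ((m + 1) % 2) ((m + 1) / 2) := by
  have h1 : ∀ ι : ℕ, ∑ i ∈ Finset.range (m + 1 + 1), (if 2 * i + ι ≤ m + 1 then Dh u v Q ι i else 0) =
      ∑ i ∈ Finset.range (m + 1), (if 2 * i + ι ≤ m then Dh u v Q ι i else 0) +
        ∑ i ∈ Finset.range (m + 1), (if 2 * i + ι = m + 1 then Dh u v Q ι i else 0) := by
    intro ι
    rw [Finset.sum_range_succ, if_neg (by omega), add_zero, ← Finset.sum_add_distrib]
    refine Finset.sum_congr rfl fun i _ => ?_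
    by_cases h2 : 2 * i + ι ≤ m
    · rw [if_pos (by omega), if_pos h2, if_neg (by omega), add_zero]
    · by_cases h3 : 2 * i + ι = m + 1
      · rw [if_pos (by omega), if_neg h2, if_pos h3, zero_add]
      · rw [if_neg (by omega), if_neg h2, if_neg h3, zero_add]
  unfold Rh
  rw [Finset.sum_congr rfl fun ι _ => h1 ι, Finset.sum_add_distrib]
  congr 1
  rw [Finset.sum_range_succ, Finset.sum_range_one]
  rcases Nat.even_or_odd' m with ⟨i, hi | hi⟩
  · have e1 : (m + 1) / 2 = i := by omega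
    have e2 : (m + 1) % 2 = 1 := by omega
    rw [e1, e2, Finset.sum_eq_zero, zero_add, Finset.sum_eq_single i, if_pos (by omega)]
    · intro b _ hb
      rw [if_neg (by omega)]
    · intro hn
      rw [Finset.mem_range] at hn
      omega
    · intro b _
      rw [if_neg (by omega)]
  · have e1 : (m + 1) / 2 = i + 1 := by omega
    have e2 : (m + 1) % 2 = 0 := by omega
    have h0 : ∑ b ∈ Finset.range (m + 1), (if 2 * b + 1 = m + 1 then Dh u v Q 1 b else 0) = 0 := by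
      refine Finset.sum_eq_zero fun b _ => ?_
      rw [if_neg (by omega)]
    rw [e1, e2, h0, add_zero, Finset.sum_eq_single (i + 1), if_pos (by omega)]
    · intro b _ hb
      rw [if_neg (by omega)]
    · intro hn
      rw [Finset.mem_range] at hn
      omega

theorem Sh000 (h : Sol 0 ε Q⁻¹ u v) : Sh u v Q 0 0 0 = 1 := by
  unfold Sh
  rw [if_pos rfl]
  have h1 : v (((0 : ℕ) : ℤ) - 1) (((0 : ℕ) : ℤ) + 1) = 0 := h.pre.vn _ _ (by norm_num)
  rw [h1, mul_zero, sub_zero]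
  exact u00 h

theorem Rh_eq (h : Sol 0 ε Q⁻¹ u v) (hQ : 0 < Q) (m : ℕ) : Hh u v Q m = Rh u v Q m := by
  induction m with
  | zero =>
    have e1 : Rh u v Q 0 = 1 := by
      unfold Rh
      rw [Finset.sum_range_succ, Finset.sum_range_one, zero_add, Finset.sum_range_one,
        Finset.sum_range_one, if_pos (by norm_num), if_neg (by norm_num), add_zero]
      unfold Dh
      rw [mul_zero, zero_add, Finset.sum_range_one, Sh000 h]
      simp
    rw [e1]
    unfold Hh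
    have e2 : 4 * (0 / 2) + 2 = 2 := by norm_num
    rw [e2, Finset.sum_range_succ, Finset.sum_range_one]
    have h1 : u 0 1 = 0 := u_zero h.pre (by norm_num)
    simp [h1, u00 h]
  | succ m ih => rw [step h hQ, Rh_step, ih]

end

theorem t_lex : S_lex := by
  intro ε Q _ hQ h
  refine ⟨fun m => ?_, Sh_symm h.pre, Sh_zero h.pre, Sh000 h⟩
  have h1 : H ε Q m = Hh (ca ε Q⁻¹).1 (ca ε Q⁻¹).2 Q m := rfl
  rw [h1, Rh_eq h hQ]
  unfold Rh Dh
  refine Finset.sum_congr rfl fun ι _ => Finset.sum_congr rfl fun i _ => ?_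
  by_cases h2 : 2 * i + ι ≤ m
  · rw [if_pos h2]
    refine Finset.sum_congr rfl fun k _ => ?_
    rw [if_pos h2]
    rfl
  · rw [if_neg h2]
    symm
    refine Finset.sum_eq_zero fun k _ => ?_
    rw [if_neg h2]

end Pool.Agent.H113.EX
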